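import Mathlib
import Pool.Agent.H26.Neumann

set_option autoImplicit false

open Filter Topology

namespace Pool.Agent.Results.MP_18d2fb_an.NeumannDiverges

/-- Over the real or the complex field there is a Frechet space `E` (Hausdorff, complete, with
topology given by an increasing sequence of seminorms) and a continuous linear `U` on `E` with
`I - c U` bijective for every scalar `c`, and a vector `x` whose Neumann series converges for no
nonzero `c`. -/
theorem result (𝕜 : Type) [RCLike 𝕜] :
    ∃ (E : Type) (_ : AddCommGroup E) (_ : Module 𝕜 E) (_ : UniformSpace E)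
      (_ : IsUniformAddGroup E) (p : ℕ → Seminorm 𝕜 E),
      WithSeminorms p ∧ Monotone p ∧ T2Space E ∧ CompleteSpace E ∧
      ∃ U : E →L[𝕜] E,
        (∀ c : 𝕜, Function.Bijective (fun y : E => y - c • U y)) ∧
        ∃ x : E, ∀ c : 𝕜, c ≠ 0 → ∀ s : E,
          ¬ Tendsto (fun n : ℕ => ∑ k ∈ Finset.range n, c ^ k • (U ^ k) x) atTop (𝓝 s) := by
  open Pool.Agent.H26.Neumann in
  exact ⟨E 𝕜, inferInstance, inferInstance, inferInstance,
    (E 𝕜).toAddSubgroup.isUniformAddGroup, p 𝕜, p_with 𝕜, p_mono 𝕜,
    inferInstance, (E_closed 𝕜).completeSpace_coe, U 𝕜, bij 𝕜, x 𝕜, diverge 𝕜⟩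

end Pool.Agent.Results.MP_18d2fb_an.NeumannDiverges
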